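import Pool.Agent.T2H75.RB.Short

set_option autoImplicit false

/-!
# MP_542e45_an: the Rayleigh beam - heat transmission system can decay exponentially

We show that both conjectured optimal rates (`t^(-2)` in Q1, `t^(-1)` in Q2) are wrong: for
`α1 = α2 = β1 = β2 = γ = κ = ρ0 = 1`, `L = 1`, `L0 = 4095/4096` and all `0 < ρ1, ρ2 ≤ 1` the energy of every classical
solution decays exponentially, `E(t) ≤ 2 exp(-t/786480) E(0)`.

The states (definitions in `Pool.Agent.T2H75.RB.Short`; `Par`, `J`, `pw`, `par` in `Pool.Agent.T2H75.RB.Defs`): the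
displacements `(u, y)` are glued to a function in `H²_0(0,L)`, given by its second derivative `p`; the velocities are
glued to a function in `H¹_0(0,L)`, given by its first derivative `q`; the temperature is extended by zero.
`Generates c Φ Ψ` says that `Φ` is in the domain of the generator `A` and `A Φ = Ψ`; `IsSolution c Φ Ψ` says that
`t ↦ Φ t` is a classical solution with time derivative `Ψ t` (for `Φ 0` in the domain these are the orbits of the
semigroup; we only ask for right derivatives).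

Proof: with `v = u_t`, `q = v_x`, `z = u_x`, `p = u_xx` (on the whole of `(0,1)`) and `a = u_tt` the functional
`Λ = 32768 E + (1/16) ∫ (ρ v u + q z) - 2 ∫ h q p + (1/1024) ∫ (1 - 2x) q p + ∫ χ θ v`
satisfies `Λ' ≤ - E / 24` and `|Λ - 32768 E| ≤ 2 E`. Here `h` has slope `-1` near the undamped part and a small positive
slope elsewhere, and vanishes at `0` and `1`; `χ` is a cut-off function which is zero on the undamped part. The term with
`χ` turns the dissipation `∫ θ_x²` into a damping of the kinetic energy in the heated part, because at high frequencies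
`θ` behaves like `- u_t`: the beam is damped by a friction term of order zero, not only by compact terms. The force
`S = u_ttx - u_xxx - θ_x` is estimated by the traces `u_xx(0)`, `u_xx(1)`, which are controlled by the multiplier `1 - 2x`.

Packages A (time derivative of the functional) and B (absolutely continuous representatives) were formalised by helper26.
-/

open MeasureTheory Set Filter
open Pool.Agent.T2H75.RB

namespace Pool.Agent.Results.MP_542e45_an.ExponentialDecay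

/-- the constants are admissible -/
def Admissible (c : Par) : Prop :=
  0 < c.L0 ∧ c.L0 < c.L ∧ 0 < c.ρ0 ∧ 0 < c.ρ1 ∧ 0 < c.ρ2 ∧ 0 < c.α1 ∧ 0 < c.α2 ∧ 0 < c.β1 ∧ 0 < c.β2 ∧ 0 < c.κ ∧
    c.γ ≠ 0

/-- the square of the graph norm of `Φ0` in the domain of the generator, `Ψ0 = A Φ0` (`‖Φ‖² = 2 E`) -/
noncomputable def graphSq (c : Par) (Φ0 Ψ0 : St) : ℝ := 2 * energy c Φ0 + 2 * energy c Ψ0

/-- `E(t) ≤ C t^(-r) ‖Φ0‖²_{D(A)}` for all classical solutions and all `t > 0` -/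
def PolyDecay (c : Par) (r : ℝ) : Prop :=
  ∃ C : ℝ, 0 < C ∧ ∀ Φ Ψ : ℝ → St, IsSolution c Φ Ψ → ∀ t : ℝ, 0 < t →
    energy c (Φ t) ≤ C * t ^ (-r) * graphSq c (Φ 0) (Ψ 0)

lemma E_nonneg {c : Par} (hc : Admissible c) (Φ : St) : 0 ≤ energy c Φ := by
  obtain ⟨h1, h2, h3, h4, h5, h6, h7, h8, h9, _⟩ := hc
  unfold energy
  refine add_nonneg (mul_nonneg (by norm_num) (intervalIntegral.integral_nonneg h1.le fun x _ => by positivity))
    (mul_nonneg (by norm_num) (intervalIntegral.integral_nonneg h2.le fun x _ => by positivity))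

/-- an exponential is smaller than every power -/
lemma exp_le_rpow {ω r : ℝ} (hω : 0 < ω) (hr : 0 < r) :
    ∃ C : ℝ, 0 < C ∧ ∀ t : ℝ, 0 < t → Real.exp (-ω * t) ≤ C * t ^ (-r) := by
  refine ⟨(r / ω) ^ r, by positivity, fun t ht => ?_⟩
  have h1 : (ω * t / r) ≤ Real.exp (ω * t / r) := by
    have := Real.add_one_le_exp (ω * t / r)
    linarith
  have h2 : (ω * t / r) ^ r ≤ Real.exp (ω * t / r) ^ r :=
    Real.rpow_le_rpow (by positivity) h1 hr.le
  rw [← Real.exp_mul, div_mul_cancel₀ _ hr.ne'] at h2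
  have h3 : (r / ω) ^ r * t ^ (-r) * (ω * t / r) ^ r = 1 := by
    rw [Real.rpow_neg ht.le, Real.div_rpow hr.le hω.le, Real.div_rpow (by positivity) hr.le,
      Real.mul_rpow hω.le ht.le]
    have a1 : (0:ℝ) < r ^ r := by positivity
    have a2 : (0:ℝ) < ω ^ r := by positivity
    have a3 : (0:ℝ) < t ^ r := by positivity
    field_simp
  have h4 : 0 < (r / ω) ^ r * t ^ (-r) := by positivity
  calc Real.exp (-ω * t) = Real.exp (-ω * t) * ((r / ω) ^ r * t ^ (-r) * (ω * t / r) ^ r) := by rw [h3, mul_one]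
    _ ≤ Real.exp (-ω * t) * ((r / ω) ^ r * t ^ (-r) * Real.exp (ω * t)) := by gcongr
    _ = (r / ω) ^ r * t ^ (-r) * (Real.exp (-ω * t) * Real.exp (ω * t)) := by ring
    _ = (r / ω) ^ r * t ^ (-r) := by
        rw [← Real.exp_add, show -ω * t + ω * t = 0 by ring, Real.exp_zero, mul_one]

lemma admissible_par {ρ1 ρ2 : ℝ} (h1 : 0 < ρ1) (h2 : 0 < ρ2) : Admissible (par ρ1 ρ2) := by
  unfold Admissible par
  norm_num
  exact ⟨h1, h2⟩

lemma expo {ρ1 ρ2 : ℝ} (h1 : 0 < ρ1) (h1' : ρ1 ≤ 1) (h2 : 0 < ρ2) (h2' : ρ2 ≤ 1) (Φ Ψ : ℝ → St)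
    (hs : IsSolution (par ρ1 ρ2) Φ Ψ) (t : ℝ) (ht : 0 ≤ t) :
    energy (par ρ1 ρ2) (Φ t) ≤ 2 * Real.exp (-(1 / 786480) * t) * energy (par ρ1 ρ2) (Φ 0) := by
  have e0 : 0 < (par ρ1 ρ2).L0 := by
    unfold par
    norm_num
  have e1 : (par ρ1 ρ2).L0 < (par ρ1 ρ2).L := by
    unfold par
    norm_num
  have h := decay h1 h1' h2 h2' _ _ (sol_lf e0 e1 hs) t ht
  rwa [energy_lf e0 e1 (hs t ht).1.1, energy_lf e0 e1 (hs 0 le_rfl).1.1] at h

lemma poly {ρ1 ρ2 : ℝ} (h1 : 0 < ρ1) (h1' : ρ1 ≤ 1) (h2 : 0 < ρ2) (h2' : ρ2 ≤ 1) {r : ℝ} (hr : 0 < r) :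
    PolyDecay (par ρ1 ρ2) r := by
  obtain ⟨C, hC, h⟩ := exp_le_rpow (ω := 1 / 786480) (r := r) (by norm_num) hr
  refine ⟨C, hC, fun Φ Ψ hs t ht => ?_⟩
  have hd := expo h1 h1' h2 h2' Φ Ψ hs t ht.le
  have hE0 := E_nonneg (admissible_par h1 h2) (Φ 0)
  have hE1 := E_nonneg (admissible_par h1 h2) (Ψ 0)
  have h3 := h t ht
  have h4 : 0 < C * t ^ (-r) := by positivity
  unfold graphSq
  calc energy (par ρ1 ρ2) (Φ t) ≤ 2 * Real.exp (-(1 / 786480) * t) * energy (par ρ1 ρ2) (Φ 0) := hd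
    _ ≤ 2 * (C * t ^ (-r)) * energy (par ρ1 ρ2) (Φ 0) := by gcongr
    _ ≤ C * t ^ (-r) * (2 * energy (par ρ1 ρ2) (Φ 0) + 2 * energy (par ρ1 ρ2) (Ψ 0)) := by nlinarith

theorem result :
    -- exponential decay of all classical solutions, for these constants and all densities in `(0,1]`
    (∀ ρ1 ρ2 : ℝ, 0 < ρ1 → ρ1 ≤ 1 → 0 < ρ2 → ρ2 ≤ 1 →
      ∀ Φ Ψ : ℝ → St, IsSolution (par ρ1 ρ2) Φ Ψ → ∀ t : ℝ, 0 ≤ t →
        energy (par ρ1 ρ2) (Φ t) ≤ 2 * Real.exp (-(1 / 786480) * t) * energy (par ρ1 ρ2) (Φ 0)) ∧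
    -- the negation of Q1: in the regime `ρ1 ≥ ρ2`, `α1 ≥ α2` the rate `t^(-2)` is not optimal
    (∃ c : Par, Admissible c ∧ c.ρ2 ≤ c.ρ1 ∧ c.α2 ≤ c.α1 ∧ ∀ δ : ℝ, 0 < δ → PolyDecay c (2 + δ)) ∧
    -- the negation of Q2: in the regime `ρ1 < ρ2` or `α1 < α2` the rate `t^(-1)` is not optimal
    (∃ c : Par, Admissible c ∧ (c.ρ1 < c.ρ2 ∨ c.α1 < c.α2) ∧ ∀ δ : ℝ, 0 < δ → PolyDecay c (1 + δ)) := by
  refine ⟨fun ρ1 ρ2 h1 h1' h2 h2' Φ Ψ hs t ht => expo h1 h1' h2 h2' Φ Ψ hs t ht, ?_, ?_⟩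
  · refine ⟨par 1 1, admissible_par one_pos one_pos, le_rfl, le_rfl, fun δ hδ => ?_⟩
    exact poly one_pos le_rfl one_pos le_rfl (by linarith)
  · refine ⟨par (1 / 2) 1, admissible_par (by norm_num) one_pos, Or.inl ?_, fun δ hδ => ?_⟩
    · show (1 / 2 : ℝ) < 1
      norm_num
    · exact poly (by norm_num) (by norm_num) one_pos le_rfl (by linarith)

end Pool.Agent.Results.MP_542e45_an.ExponentialDecay
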